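import Pool.Agent.H71.AL.Targets

/-!
Board alv_modules, row TRS: an increasing homeomorphism without fixed points is conjugate to the
translation.
-/

set_option autoImplicit false

open Set
open Pool.Agent.AL

namespace Pool.Agent.H56.ALV

/-- the iterates are unbounded -/
theorem unb {f : ℝ → ℝ} (hf : Continuous f) (h : ∀ x, x < f x) (M : ℝ) :
    ∃ n : ℕ, M < f^[n] 0 := by
  by_contra hc
  push Not at hc
  set u : ℕ → ℝ := fun n => f^[n] 0 with hu
  have hs : ∀ n, u (n + 1) = f (u n) := fun n => Function.iterate_succ_apply' f n 0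
  have hm : Monotone u := monotone_nat_of_le_succ fun n => by
    rw [hs]
    exact (h _).le
  have hb : BddAbove (range u) := ⟨M, by
    rintro _ ⟨n, rfl⟩
    exact hc n⟩
  have h1 := tendsto_atTop_ciSup hm hb
  have h2 : Filter.Tendsto (fun n => u (n + 1)) Filter.atTop (nhds (⨆ n, u n)) :=
    h1.comp (Filter.tendsto_add_atTop_nat 1)
  have h3 : Filter.Tendsto (fun n => u (n + 1)) Filter.atTop (nhds (f (⨆ n, u n))) := by
    have h4 := (hf.tendsto (⨆ n, u n)).comp h1
    refine h4.congr fun n => ?_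
    rw [hs]
    rfl
  exact absurd (tendsto_nhds_unique h2 h3) (h _).ne

/-- powers are increasing -/
theorem zpow_mono (e : Equiv.Perm ℝ) (he : StrictMono e) (n : ℤ) : StrictMono (e ^ n) := by
  have h1 : ∀ n : ℕ, StrictMono (e ^ n : Equiv.Perm ℝ) := by
    intro n
    induction n with
    | zero => exact fun a b h => h
    | succ n ih =>
      intro a b h
      rw [pow_succ', Equiv.Perm.mul_apply, Equiv.Perm.mul_apply]
      exact he (ih h)
  rcases Int.eq_nat_or_neg n with ⟨m, rfl | rfl⟩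
  · rw [zpow_natCast]
    exact h1 m
  · rw [zpow_neg, zpow_natCast]
    intro a b h
    by_contra hc
    rw [not_lt] at hc
    have h2 := (h1 m).monotone hc
    rw [← Equiv.Perm.mul_apply, ← Equiv.Perm.mul_apply, mul_inv_cancel] at h2
    exact absurd h (not_lt.2 h2)

theorem pf_TRS : T_TRS := by
  intro φ hφ hlt
  set e : Equiv.Perm ℝ := φ.toEquiv with he
  have hea : ∀ x, e x = φ x := fun _ => rfl
  have hes : ∀ x, e.symm x = φ.symm x := fun _ => rfl
  have hem : StrictMono e := hφ
  have hzm := zpow_mono e hem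
  have hc0 : 0 < φ 0 := hlt 0
  have hsucc : ∀ (n : ℤ) (x : ℝ), (e ^ (n + 1)) x = (e ^ n) (φ x) := by
    intro n x
    rw [zpow_add_one, Equiv.Perm.mul_apply]
    rfl
  have hsucc' : ∀ (n : ℤ) (x : ℝ), (e ^ (n + 1)) x = φ ((e ^ n) x) := by
    intro n x
    rw [add_comm, zpow_add, zpow_one, Equiv.Perm.mul_apply]
    rfl
  -- the orbit of zero
  have horb : StrictMono fun n : ℤ => (e ^ n) 0 := by
    refine strictMono_int_of_lt_succ fun n => ?_
    rw [hsucc']
    exact hlt _
  have hup : ∀ x, ∃ n : ℤ, x < (e ^ n) 0 := by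
    intro x
    obtain ⟨n, hn⟩ := unb φ.continuous hlt x
    refine ⟨n, ?_⟩
    rw [zpow_natCast, ← Equiv.Perm.iterate_eq_pow]
    exact hn
  have hdn : ∀ x, ∃ n : ℤ, (e ^ n) 0 ≤ x := by
    intro x
    have h1 : ∀ x, φ.symm x < x := by
      intro x
      have := hlt (φ.symm x)
      rwa [φ.apply_symm_apply] at this
    obtain ⟨n, hn⟩ := unb (f := fun x => -φ.symm (-x))
      ((φ.symm.continuous.comp continuous_neg).neg) (fun x => by
        have := h1 (-x)
        linarith) (-x)
    have h2 : ∀ n : ℕ, (fun x => -φ.symm (-x))^[n] 0 = -(φ.symm^[n] 0) := by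
      intro n
      induction n with
      | zero => simp
      | succ n ih =>
        rw [Function.iterate_succ_apply', Function.iterate_succ_apply', ih, neg_neg]
    rw [h2] at hn
    refine ⟨-n, ?_⟩
    rw [zpow_neg, zpow_natCast, ← inv_pow, ← Equiv.Perm.iterate_eq_pow]
    have h3 : (e⁻¹ : Equiv.Perm ℝ)^[n] 0 = φ.symm^[n] 0 := rfl
    rw [h3]
    linarith
  -- the conjugation
  set h : ℝ → ℝ := fun t => (e ^ ⌊t⌋) (Int.fract t * φ 0) with hh
  have hmono : StrictMono h := by
    intro s t hst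
    rcases (Int.floor_mono hst.le).lt_or_eq with h1 | h1
    · have h2 : h s < (e ^ (⌊s⌋ + 1)) 0 := by
        rw [hsucc]
        refine hzm _ ?_
        exact mul_lt_of_lt_one_left hc0 (Int.fract_lt_one s)
      have h3 : (e ^ (⌊s⌋ + 1)) 0 ≤ (e ^ ⌊t⌋) 0 := horb.monotone h1
      have h4 : (e ^ ⌊t⌋) 0 ≤ h t :=
        (hzm _).monotone (mul_nonneg (Int.fract_nonneg t) hc0.le)
      exact h2.trans_le (h3.trans h4)
    · have h2 : Int.fract s < Int.fract t := by
        have h3 := Int.floor_add_fract s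
        have h4 := Int.floor_add_fract t
        rw [h1] at h3
        linarith
      change (e ^ ⌊s⌋) _ < (e ^ ⌊t⌋) _
      rw [h1]
      exact hzm _ (mul_lt_mul_of_pos_right h2 hc0)
  have hsurj : Function.Surjective h := by
    intro x
    obtain ⟨m, hm⟩ := hup x
    obtain ⟨n, hn, hmax⟩ := Int.exists_greatest_of_bdd (P := fun n : ℤ => (e ^ n) 0 ≤ x)
      ⟨m, fun z hz => by
        by_contra hc
        rw [not_le] at hc
        exact absurd (hm.trans (horb hc)) (not_lt.2 hz)⟩ (hdn x)
    have h1 : x < (e ^ (n + 1)) 0 := by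
      by_contra hc
      rw [not_lt] at hc
      have := hmax (n + 1) hc
      omega
    set y : ℝ := (e ^ (-n)) x with hy
    have hny : (e ^ n) y = x := by
      rw [hy, ← Equiv.Perm.mul_apply, ← zpow_add, add_neg_cancel, zpow_zero]
      rfl
    have hy0 : 0 ≤ y := by
      by_contra hc
      rw [not_le] at hc
      have := hzm n hc
      rw [hny] at this
      exact absurd this (not_lt.2 hn)
    have hy1 : y < φ 0 := by
      by_contra hc
      rw [not_lt] at hc
      have := (hzm n).monotone hc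
      rw [hny, ← hsucc] at this
      exact absurd h1 (not_lt.2 this)
    refine ⟨n + y / φ 0, ?_⟩
    have hf0 : 0 ≤ y / φ 0 := div_nonneg hy0 hc0.le
    have hf1 : y / φ 0 < 1 := by rwa [div_lt_one hc0]
    have hfl : ⌊(n : ℝ) + y / φ 0⌋ = n := by
      rw [Int.floor_intCast_add, Int.floor_eq_zero_iff.2 ⟨hf0, hf1⟩, add_zero]
    have hfr : Int.fract ((n : ℝ) + y / φ 0) = y / φ 0 := by
      rw [Int.fract_intCast_add, Int.fract_eq_self.2 ⟨hf0, hf1⟩]
    change (e ^ ⌊(n : ℝ) + y / φ 0⌋) (Int.fract ((n : ℝ) + y / φ 0) * φ 0) = x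
    rw [hfl, hfr, div_mul_cancel₀ _ hc0.ne', hny]
  have hshift : ∀ t, h (t + 1) = φ (h t) := by
    intro t
    change (e ^ ⌊t + 1⌋) (Int.fract (t + 1) * φ 0) = _
    rw [Int.floor_add_one, Int.fract_add_one, hsucc']
  set E : ℝ ≃o ℝ := StrictMono.orderIsoOfSurjective h hmono hsurj with hE
  have hEh : ∀ t, E t = h t := fun _ => rfl
  refine ⟨E.symm.toHomeomorph, E.symm.strictMono, fun x => ?_⟩
  change E.symm (φ x) = E.symm x + 1
  rw [OrderIso.symm_apply_eq, hEh, hshift, ← hEh, OrderIso.apply_symm_apply]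

end Pool.Agent.H56.ALV
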